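import Pool.Agent.H53.Tame.Final

/-!
Every preimage tower of a postcritically finite rational map over a number field is wildly
ramified: there is a prime of `K` of residue characteristic `p` over which the exponent of `p` in
the ramification indices of the tower is unbounded.
-/

open Polynomial NumberField

namespace Pool.Agent.Results.MP_392fd3_nt.WildTower

universe u

section Defs

variable {K : Type u} [Field K]

/-- The degree of the rational map `f = P / Q` (for coprime polynomials `P` and `Q`). -/
noncomputable def mapDegree (P Q : K[X]) : ℕ := max P.natDegree Q.natDegree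

open Classical in
/-- The map `f = P / Q` on the projective line `P¹(L) = L ∪ {∞}` over an extension `L` of `K`:
the value at `∞` is the ratio of the coefficients of degree `deg f`. -/
noncomputable def ratMap (P Q : K[X]) (L : Type u) [Field L] [Algebra K L] (x : OnePoint L) :
    OnePoint L :=
  x.elim (if Q.coeff (mapDegree P Q) = 0 then OnePoint.infty
      else ((algebraMap K L (P.coeff (mapDegree P Q) / Q.coeff (mapDegree P Q)) : L) : OnePoint L))
    (fun z => if aeval z Q = 0 then OnePoint.infty
      else ((aeval z P / aeval z Q : L) : OnePoint L))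

/-- The critical points of `f = P / Q` in `P¹(L)`: a finite point `z` is critical when
`P' Q - P Q'` vanishes at `z`, and `∞` is critical when the degree of `P' Q - P Q'` is less than
`2 deg f - 2`. -/
def IsCritical (P Q : K[X]) (L : Type u) [Field L] [Algebra K L] (x : OnePoint L) : Prop :=
  x.elim ((derivative P * Q - P * derivative Q).coeff (2 * mapDegree P Q - 2) = 0)
    (fun z => aeval z (derivative P * Q - P * derivative Q) = 0)

/-- `f = P / Q` is postcritically finite: the forward orbit of every critical point in
`P¹(K̄)` is finite. -/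
def IsPCF (P Q : K[X]) : Prop :=
  ∀ c : OnePoint (AlgebraicClosure K), IsCritical P Q (AlgebraicClosure K) c →
    (Set.range (fun n : ℕ => (ratMap P Q (AlgebraicClosure K))^[n] c)).Finite

/-- `α ∈ P¹(K)` is non-exceptional: its backward orbit in `P¹(K̄)` is infinite. -/
def IsNonExceptional (P Q : K[X]) (α : OnePoint K) : Prop :=
  {x : OnePoint (AlgebraicClosure K) | ∃ n : ℕ, (ratMap P Q (AlgebraicClosure K))^[n] x =
    OnePoint.map (algebraMap K (AlgebraicClosure K)) α}.Infinite

/-- The field `K_n = K(f⁻ⁿ(α))`, generated over `K` by the (finite) coordinates of the points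
`x ∈ P¹(K̄)` with `fⁿ(x) = α`. -/
noncomputable def preimageField (P Q : K[X]) (α : OnePoint K) (n : ℕ) :
    IntermediateField K (AlgebraicClosure K) :=
  IntermediateField.adjoin K {z : AlgebraicClosure K |
    (ratMap P Q (AlgebraicClosure K))^[n] (z : OnePoint (AlgebraicClosure K)) =
      OnePoint.map (algebraMap K (AlgebraicClosure K)) α}

end Defs

/-- For every number field `K`, every postcritically finite rational map `f = P / Q` over `K` of
degree at least two and every non-exceptional `α ∈ P¹(K)` there is a nonzero prime `𝔭` of `K`, of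
residue characteristic `p`, such that for every `k` there are `n ≥ 1` and a prime `𝔓` of
`K_n = K(f⁻ⁿ(α))` above `𝔭` whose ramification index is nonzero and divisible by `p ^ k`.
In particular `𝔭` is wildly ramified in `K_n / K` for some `n`. -/
theorem result (K : Type u) [Field K] [NumberField K] (P Q : K[X]) (hPQ : IsCoprime P Q)
    (hdeg : 2 ≤ mapDegree P Q) (hpcf : IsPCF P Q) (α : OnePoint K)
    (hα : IsNonExceptional P Q α) :
    ∃ 𝔭 : Ideal (𝓞 K), 𝔭.IsPrime ∧ 𝔭 ≠ ⊥ ∧ ∀ k : ℕ, ∃ n : ℕ, 1 ≤ n ∧
      ∃ 𝔓 : Ideal (𝓞 (preimageField P Q α n)), 𝔓.IsPrime ∧ 𝔓.LiesOver 𝔭 ∧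
        Ideal.ramificationIdx' 𝔭 𝔓 ≠ 0 ∧
        ringChar (𝓞 K ⧸ 𝔭) ^ k ∣ Ideal.ramificationIdx' 𝔭 𝔓 :=
  Pool.Agent.H53.Tame.final K P Q hPQ hdeg hpcf α hα

end Pool.Agent.Results.MP_392fd3_nt.WildTower
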